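import Pool.Agent.Helper23.EC.DGoalsM

/-!
# MP_ecc237_nt, part D, packet M4
-/

set_option autoImplicit false

open MeasureTheory Filter Topology Set

namespace Pool.Agent.Helper81.EC.D_M4

open EC237

theorem inj1 : Function.Injective
    (fun m : ℤ × ℤ × ℤ => (m.1, m.2.1, -(m.1 + m.2.1 + m.2.2))) := by
  intro m m' h
  simp only [Prod.mk.injEq] at h
  obtain ⟨e1, e2, e3⟩ := h
  exact Prod.ext e1 (Prod.ext e2 (by omega))

theorem inj2 : Function.Injective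
    (fun m : ℤ × ℤ × ℤ => (m.2.2, -(m.1 + m.2.1 + m.2.2), m.1)) := by
  intro m m' h
  simp only [Prod.mk.injEq] at h
  obtain ⟨e1, e2, e3⟩ := h
  exact Prod.ext e3 (Prod.ext (by omega) e1)

theorem inj3 : Function.Injective
    (fun m : ℤ × ℤ × ℤ => (m.2.2, -(m.1 + m.2.1 + m.2.2), m.2.1)) := by
  intro m m' h
  simp only [Prod.mk.injEq] at h
  obtain ⟨e1, e2, e3⟩ := h
  exact Prod.ext (by omega) (Prod.ext e3 e1)

theorem sum_comp {f : ℤ × ℤ × ℤ → ℂ} (hs : Summable f) {g : ℤ × ℤ × ℤ → ℤ × ℤ × ℤ}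
    (hi : Function.Injective g) {f' : ℤ × ℤ × ℤ → ℂ} (h : ∀ m, f' m = f (g m)) : Summable f' := by
  have e : f' = f ∘ g := funext h
  rw [e]
  exact hs.comp_injective hi

theorem thm (hM3 : EC237.M3) : EC237.M4 := by
  intro y hy c1 c2 c3 c4 a1 a2 a3 a4 h1 h2 h3 h4 h12 h34 hc
  have hcA : (c1 + c2 + c4 + c3) % 3 = 0 := by omega
  have hcB : (c3 + c4 + c1 + c2) % 3 = 0 := by omega
  have hcC : (c3 + c4 + c2 + c1) % 3 = 0 := by omega
  refine ⟨?_, ?_, ?_, ?_⟩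
  · have hs := (hM3 y hy c1 c2 c4 c3 a1 a2 a4 a3 h1 h2 h4 h3 h12 hcA).1
    exact sum_comp hs inj1 (fun m => rfl)
  · have hs := (hM3 y hy c3 c4 c1 c2 a3 a4 a1 a2 h3 h4 h1 h2 h34 hcB).1
    exact sum_comp hs inj2 (fun m => rfl)
  · have hs := (hM3 y hy c3 c4 c2 c1 a3 a4 a2 a1 h3 h4 h2 h1 h34 hcC).1
    exact sum_comp hs inj3 (fun m => rfl)
  · have hs := (hM3 y hy c3 c4 c1 c2 a3 a4 a1 a2 h3 h4 h1 h2 h34 hcB).2
    refine sum_comp hs inj2 (fun m => ?_)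
    have e : -(m.2.2 + -(m.1 + m.2.1 + m.2.2) + m.1) = m.2.1 := by ring
    simp only [e]

end Pool.Agent.Helper81.EC.D_M4
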