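import Pool.Agent.Helper23.EC.DGoalsN

/-!
# MP_ecc237_nt, part D, packet N3
-/

set_option autoImplicit false

open MeasureTheory Filter Topology Set

namespace Pool.Agent.Helper81.EC.D_N3

open EC237

/-- product of two summable functions of independent variables -/
theorem hs12 {F G : ℤ → ℂ} (hF : Summable F) (hG : Summable G) :
    HasSum (fun q : ℤ × ℤ => F q.1 * G q.2) ((∑' n, F n) * ∑' n, G n) := by
  have hs := summable_mul_of_summable_norm hF.norm hG.norm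
  rw [tsum_mul_tsum_of_summable_norm hF.norm hG.norm]
  exact hs.hasSum

/-- change of variables `(n1,n2) ↦ (n2, n1+n2)` -/
def e2 : ℤ × ℤ ≃ ℤ × ℤ where
  toFun q := (q.2, q.1 + q.2)
  invFun q := (q.2 - q.1, q.1)
  left_inv q := by ext <;> simp
  right_inv q := by ext <;> simp

/-- change of variables `(n1,n2) ↦ (n1, n1+n2)` -/
def e1 : ℤ × ℤ ≃ ℤ × ℤ where
  toFun q := (q.1, q.1 + q.2)
  invFun q := (q.1, q.2 - q.1)
  left_inv q := by ext <;> simp
  right_inv q := by ext <;> simp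

theorem hs21 {F G : ℤ → ℂ} (hF : Summable F) (hG : Summable G) :
    HasSum (fun q : ℤ × ℤ => F q.2 * G q.1) ((∑' n, F n) * ∑' n, G n) := by
  have h := hs12 hG hF
  rw [mul_comm (∑' n, G n)] at h
  refine h.congr_fun ?_
  intro q
  ring

theorem hs2s {F G : ℤ → ℂ} (hF : Summable F) (hG : Summable G) :
    HasSum (fun q : ℤ × ℤ => F q.2 * G (q.1 + q.2)) ((∑' n, F n) * ∑' n, G n) :=
  (e2.hasSum_iff (f := fun q : ℤ × ℤ => F q.1 * G q.2)).mpr (hs12 hF hG)

theorem hs1s {F G : ℤ → ℂ} (hF : Summable F) (hG : Summable G) :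
    HasSum (fun q : ℤ × ℤ => F q.1 * G (q.1 + q.2)) ((∑' n, F n) * ∑' n, G n) :=
  (e1.hasSum_iff (f := fun q : ℤ × ℤ => F q.1 * G q.2)).mpr (hs12 hF hG)

/-- `h` part -/
noncomputable def hf (y : ℝ) (r m al : ℤ) (i : ℕ) (n : ℤ) : ℂ :=
  if InCl r (n, m) then PowerSeries.coeff i (hh (y:ℂ) ((n, m), al)) else 0

/-- `d` part -/
noncomputable def df (y : ℝ) (r m al : ℤ) (i : ℕ) (n : ℤ) : ℂ :=
  if InCl r (n, m) then PowerSeries.coeff i (dd (y:ℂ) ((n, m), al)) else 0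

/-- coefficient of a bracket -/
theorem coeff_br (w : ℂ) (v1 v2 : SV) (i : ℕ) : PowerSeries.coeff i (br w v1 v2) =
    ∑ p ∈ Finset.HasAntidiagonal.antidiagonal i, (PowerSeries.coeff p.1 (hh w v1) * PowerSeries.coeff p.2 (dd w v2)
      - PowerSeries.coeff p.1 (hh w v2) * PowerSeries.coeff p.2 (dd w v1)) := by
  unfold br
  rw [map_sub, PowerSeries.coeff_mul, PowerSeries.coeff_mul, Finset.sum_sub_distrib]

theorem term_eq (y : ℝ) (r1 r2 m1 m2 al1 al2 : ℤ) (i : ℕ) (q : ℤ × ℤ) :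
    (if InCl r1 (q.1, m1) ∧ InCl r2 (q.2, m2) then
      PowerSeries.coeff i (Ff (y:ℂ) ((q.1, m1), al1) ((q.2, m2), al2)) else 0) =
    ∑ p ∈ Finset.HasAntidiagonal.antidiagonal i,
      ((hf y r1 m1 al1 p.1 q.1 * df y r2 m2 al2 p.2 q.2
          - hf y r2 m2 al2 p.1 q.2 * df y r1 m1 al1 p.2 q.1)
        + (hf y r2 m2 al2 p.1 q.2 * df y (r1 + r2) (m1 + m2) (al1 + al2) p.2 (q.1 + q.2)
          - df y r2 m2 al2 p.2 q.2 * hf y (r1 + r2) (m1 + m2) (al1 + al2) p.1 (q.1 + q.2))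
        + (df y r1 m1 al1 p.2 q.1 * hf y (r1 + r2) (m1 + m2) (al1 + al2) p.1 (q.1 + q.2)
          - hf y r1 m1 al1 p.1 q.1 * df y (r1 + r2) (m1 + m2) (al1 + al2) p.2 (q.1 + q.2))) := by
  by_cases h1 : InCl r1 (q.1, m1)
  · by_cases h2 : InCl r2 (q.2, m2)
    · have h3 : InCl (r1 + r2) (q.1 + q.2, m1 + m2) := by
        unfold InCl at *; simp only at *; omega
      rw [if_pos ⟨h1, h2⟩]
      unfold Ff
      rw [map_add, map_add, coeff_br, coeff_br, coeff_br, ← Finset.sum_add_distrib,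
        ← Finset.sum_add_distrib]
      refine Finset.sum_congr rfl (fun p _ => ?_)
      unfold hf df
      simp only [h1, h2, h3, if_true, Prod.mk_add_mk]
      ring
    · have h3 : ¬ InCl (r1 + r2) (q.1 + q.2, m1 + m2) := by
        unfold InCl at *; simp only at *; omega
      rw [if_neg (fun h => h2 h.2)]
      symm
      refine Finset.sum_eq_zero (fun p _ => ?_)
      unfold hf df
      simp only [h2, h3, if_false, mul_zero, zero_mul, sub_zero, add_zero]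
  · rw [if_neg (fun h => h1 h.1)]
    symm
    refine Finset.sum_eq_zero (fun p _ => ?_)
    by_cases h2 : InCl r2 (q.2, m2)
    · have h3 : ¬ InCl (r1 + r2) (q.1 + q.2, m1 + m2) := by
        unfold InCl at *; simp only at *; omega
      unfold hf df
      simp only [h1, h3, if_false, mul_zero, zero_mul, sub_zero, add_zero]
    · unfold hf df
      simp only [h1, h2, if_false, mul_zero, zero_mul, sub_zero, add_zero]

theorem thm (hN1 : EC237.N1) (hN4 : EC237.N4) : EC237.N3 := by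
  intro y hy r1 r2 m1 m2 al1 al2
  have sh : ∀ (r m al : ℤ) (i : ℕ), Summable (hf y r m al i) := fun r m al i =>
    (hN1 y hy r m al i).1
  have sd : ∀ (r m al : ℤ) (i : ℕ), Summable (df y r m al i) := fun r m al i =>
    (hN1 y hy r m al i).2.1
  have eh : ∀ (r m al : ℤ) (i : ℕ), ∑' n, hf y r m al i n = hS y r m al i := fun _ _ _ _ => rfl
  have ed : ∀ (r m al : ℤ) (i : ℕ), ∑' n, df y r m al i n = dS y r m al i := fun _ _ _ _ => rfl
  have key : ∀ i : ℕ, HasSum (fun q : ℤ × ℤ => if InCl r1 (q.1, m1) ∧ InCl r2 (q.2, m2) then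
      PowerSeries.coeff i (Ff (y:ℂ) ((q.1, m1), al1) ((q.2, m2), al2)) else 0)
      (∑ p ∈ Finset.HasAntidiagonal.antidiagonal i,
        ((hS y r1 m1 al1 p.1 * dS y r2 m2 al2 p.2 - hS y r2 m2 al2 p.1 * dS y r1 m1 al1 p.2)
        + (hS y r2 m2 al2 p.1 * dS y (r1 + r2) (m1 + m2) (al1 + al2) p.2
          - dS y r2 m2 al2 p.2 * hS y (r1 + r2) (m1 + m2) (al1 + al2) p.1)
        + (dS y r1 m1 al1 p.2 * hS y (r1 + r2) (m1 + m2) (al1 + al2) p.1
          - hS y r1 m1 al1 p.1 * dS y (r1 + r2) (m1 + m2) (al1 + al2) p.2))) := by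
    intro i
    have e : (fun q : ℤ × ℤ => if InCl r1 (q.1, m1) ∧ InCl r2 (q.2, m2) then
      PowerSeries.coeff i (Ff (y:ℂ) ((q.1, m1), al1) ((q.2, m2), al2)) else 0) =
      fun q : ℤ × ℤ => ∑ p ∈ Finset.HasAntidiagonal.antidiagonal i,
      ((hf y r1 m1 al1 p.1 q.1 * df y r2 m2 al2 p.2 q.2
          - hf y r2 m2 al2 p.1 q.2 * df y r1 m1 al1 p.2 q.1)
        + (hf y r2 m2 al2 p.1 q.2 * df y (r1 + r2) (m1 + m2) (al1 + al2) p.2 (q.1 + q.2)
          - df y r2 m2 al2 p.2 q.2 * hf y (r1 + r2) (m1 + m2) (al1 + al2) p.1 (q.1 + q.2))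
        + (df y r1 m1 al1 p.2 q.1 * hf y (r1 + r2) (m1 + m2) (al1 + al2) p.1 (q.1 + q.2)
          - hf y r1 m1 al1 p.1 q.1 * df y (r1 + r2) (m1 + m2) (al1 + al2) p.2 (q.1 + q.2))) := by
      funext q
      exact term_eq y r1 r2 m1 m2 al1 al2 i q
    rw [e]
    refine hasSum_sum (fun p _ => ?_)
    simp only [← eh, ← ed]
    exact (((hs12 (sh _ _ _ _) (sd _ _ _ _)).sub (hs21 (sh _ _ _ _) (sd _ _ _ _))).add
      ((hs2s (sh _ _ _ _) (sd _ _ _ _)).sub (hs2s (sd _ _ _ _) (sh _ _ _ _)))).add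
      ((hs1s (sd _ _ _ _) (sh _ _ _ _)).sub (hs1s (sh _ _ _ _) (sd _ _ _ _)))
  refine ⟨fun i => (key i).summable, ?_, ?_⟩
  · have h := (key 0).tsum_eq
    unfold fS
    rw [h]
    have ha : Finset.HasAntidiagonal.antidiagonal 0 = {((0:ℕ), (0:ℕ))} := by decide
    rw [ha, Finset.sum_singleton]
    simp only
    ring
  · have h := (key 2).tsum_eq
    unfold fS
    rw [h]
    have ha : Finset.HasAntidiagonal.antidiagonal 2 = {((0:ℕ), (2:ℕ)), (1, 1), (2, 0)} := by decide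
    rw [ha, Finset.sum_insert (by decide), Finset.sum_insert (by decide), Finset.sum_singleton]
    simp only
    have z : ∀ (r m al : ℤ), hS y r m al 1 = 0 ∧ dS y r m al 1 = 0 := by
      intro r m al
      obtain ⟨-, -, -, -, -, -, -, hz, -⟩ := hN4 y hy r m al
      exact hz 1 rfl
    rw [(z r1 m1 al1).1, (z r1 m1 al1).2, (z r2 m2 al2).1, (z r2 m2 al2).2,
      (z (r1 + r2) (m1 + m2) (al1 + al2)).1, (z (r1 + r2) (m1 + m2) (al1 + al2)).2]
    ring

end Pool.Agent.Helper81.EC.D_N3
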